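import Pool.Agent.W622.ETG.Lin

set_option autoImplicit false

/-! A bad hyperplane and at least two good blocks: the good blocks span. -/

namespace Pool.Agent.W303.ELG

open Pool.Agent.W622.ETG Module

/-- the annihilator determines the element -/
theorem ann_inj {V : Type} [AddCommGroup V] [Module (ZMod 2) V] {a r : V}
    (h : (ann a : DSub V) = ann r) : a = r := by
  have h1 : ∀ f : Dl V, f (a + r) = 0 := by
    intro f
    have h2 : f a = 0 ↔ f r = 0 := by
      rw [← mem_ann, ← mem_ann, h]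
    rw [map_add]
    rcases z01 (f a) with h3 | h3
    · rw [h3, h2.1 h3, add_zero]
    · rcases z01 (f r) with h4 | h4
      · rw [h2.2 h4] at h3
        exact absurd h3 (by decide)
      · rw [h3, h4, zadd]
  have h5 := (Module.forall_dual_apply_eq_zero_iff (ZMod 2) (a + r)).mp h1
  exact add_eq_zero'.mp h5

/-- B1N -/
theorem t_B1N (hBDIS : S_BDIS) (hOM : S_OM) (hCB1 : S_CB1) (hB1P : S_B1P) : S_B1N := by
  intro V _ _ _ e A F X₁ X₂ hCB hF hdim hX₁ hX₂ h12 hspan
  classical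
  -- good blocks have dimension one
  have hgood : ∀ X ∈ GB e A, ∃ s : Dl V, s ≠ 0 ∧ X = Submodule.span (ZMod 2) {s} := by
    intro X hX
    have hne : X ≠ F := by
      rintro rfl
      exact hF.2 hX.2
    have hdis := hBDIS V e A X F hCB.mc hX hF.1 hne
    have h1 : finrank (ZMod 2) X ≤ 1 := by
      have h2 := Submodule.finrank_add_finrank_le_of_disjoint hdis
      have h3 := finrank_Dl (V := V)
      omega
    have hloc : LocBlock e A X := hX.1.resolve_left fun h => hCB.nc X h.1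
    obtain ⟨-, -, -, -, h4, h5⟩ := hOM V e A X hCB.mc.ef hloc
    obtain ⟨-, s, hs, hXs, -⟩ := h5 (by omega)
    refine ⟨s, ?_, hXs⟩
    rintro rfl
    simp at hs
  obtain ⟨r, hr0, hr⟩ := exists_ann hspan
  have hGr : ∀ X ∈ GB e A, X ≤ ann r := fun X hX => (le_sSup hX).trans hr
  have key : ∀ s₁ s₂ : Dl V, s₁ ≠ 0 → s₂ ≠ 0 → s₁ ≠ s₂ →
      Submodule.span (ZMod 2) {s₁} ∈ GB e A → Submodule.span (ZMod 2) {s₂} ∈ GB e A →
      om e A F r = s₁ + s₂ ∧
        ∃ B : Set (DSub V), B ⊆ GB e A ∧ B.ncard + 1 = finrank (ZMod 2) V := by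
    intro s₁ s₂ h1 h2 h3 h4 h5
    obtain ⟨a, ha0, -, -, hom, hcard, hall⟩ := hB1P V e A F s₁ s₂ hCB hF hdim h1 h2 h3 h4 h5
    have hsub : BL e A a ⊆ GB e A := fun X hX => ⟨hX.1, (hall X hX).1⟩
    have hind := (hCB1 V e A a hCB ha0).1.1
    have hfin := Set.toFinite (BL e A a)
    have hdimS : finrank (ZMod 2) (sSup (BL e A a) : DSub V) = (BL e A a).ncard := by
      have h6 := idim hfin.toFinset (by rwa [hfin.coe_toFinset])
      rw [hfin.coe_toFinset] at h6
      rw [h6, Finset.sum_congr rfl (fun X hX => (hall X (hfin.mem_toFinset.1 hX)).2),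
        Finset.sum_const, smul_eq_mul, mul_one, Set.ncard_eq_toFinset_card _ hfin]
    have e1 : sSup (BL e A a) = ann a :=
      Submodule.eq_of_le_of_finrank_eq (sSup_le fun X hX => hX.2)
        (by have := finrank_ann ha0; omega)
    have e2 : sSup (BL e A a) = ann r :=
      Submodule.eq_of_le_of_finrank_eq (sSup_le fun X hX => hGr X (hsub hX))
        (by have := finrank_ann hr0; omega)
    have har : a = r := ann_inj (e1.symm.trans e2)
    rw [har] at hom
    exact ⟨hom, _, hsub, hcard⟩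
  obtain ⟨s₁, hs₁, rfl⟩ := hgood X₁ hX₁
  obtain ⟨s₂, hs₂, rfl⟩ := hgood X₂ hX₂
  have hs12 : s₁ ≠ s₂ := by
    rintro rfl
    exact h12 rfl
  obtain ⟨h1, B, hB, hBcard⟩ := key s₁ s₂ hs₁ hs₂ hs12 hX₁ hX₂
  have h4 := hCB.four
  have hcard2 : ({Submodule.span (ZMod 2) {s₁}, Submodule.span (ZMod 2) {s₂}} :
      Set (DSub V)).ncard < B.ncard := by
    rw [Set.ncard_pair h12]
    omega
  obtain ⟨X₃, hX₃B, hX₃⟩ := Set.exists_mem_notMem_of_ncard_lt_ncard hcard2
  obtain ⟨s₃, hs₃, rfl⟩ := hgood X₃ (hB hX₃B)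
  have hs13 : s₁ ≠ s₃ := by
    rintro rfl
    exact hX₃ (by simp)
  obtain ⟨h5, -⟩ := key s₁ s₃ hs₁ hs₃ hs13 hX₁ (hB hX₃B)
  have h6 : s₂ = s₃ := add_left_cancel (h1.symm.trans h5)
  exact hX₃ (by rw [h6]; simp)

end Pool.Agent.W303.ELG
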